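import Mathlib

/-!
# Piece W1: a sum of Teichmuller representatives tensor a nonzero homomorphism is not zero

(Written by helper21 for the project of helper54 on `MP_a90b0f_nt`.)
-/

open TensorProduct WittVector

namespace Pool.Agent.D0H54.GC

variable {p : ℕ} [Fact p.Prime]

/-- The ring of Witt vectors of a perfect field has characteristic zero. -/
theorem witt_charZero (k : Type*) [Field k] [CharP k p] [PerfectRing k p] :
    CharZero (WittVector p k) := by
  refine charZero_of_inj_zero fun n hn => ?_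
  by_contra hne
  obtain ⟨q, hq⟩ := CharP.exists (WittVector p k)
  have hqn : q ∣ n := (CharP.cast_eq_zero_iff (WittVector p k) q n).1 hn
  have hq0 : q ≠ 0 := by
    rintro rfl
    exact hne (Nat.eq_zero_of_zero_dvd hqn)
  have hqp : q.Prime := (CharP.char_is_prime_or_zero (WittVector p k) q).resolve_right hq0
  have h2 : ((q : ℕ) : WittVector p k) = 0 := CharP.cast_eq_zero _ _
  have h1 : ((q : ℕ) : k) = 0 := by
    rw [← map_natCast (WittVector.constantCoeff (p := p) (R := k)) q, h2, map_zero]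
  have h4 : p ∣ q := (CharP.cast_eq_zero_iff k p q).1 h1
  have h5 : q = p := (((Nat.dvd_prime hqp).1 h4).resolve_left (Fact.out : p.Prime).ne_one).symm
  rw [h5] at h2
  exact (WittVector.irreducible p (k := k)).ne_zero h2

theorem witt_flat (k : Type*) [Field k] [CharP k p] [PerfectRing k p] :
    Module.Flat ℤ (WittVector p k) := by
  have := witt_charZero (p := p) k
  infer_instance

/-- The value at `β` of the Fourier coefficient: for a nonzero additive map `ψ` from a finite field to its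
prime field, `∑ c⁻¹ ψ(c) ≠ 0`. -/
theorem sum_inv_psi_ne_zero {κ : Type*} [Field κ] [Fintype κ] [CharP κ p] [Fintype κˣ]
    (ψ : κ →+ ZMod p) (hψ : ψ ≠ 0) :
    (∑ c : κˣ, ((c : κ)⁻¹) * (ZMod.castHom (dvd_refl p) κ (ψ (c : κ)))) ≠ 0 := by
  classical
  let _ : Algebra (ZMod p) κ := ZMod.algebra κ p
  obtain ⟨β, hβ⟩ : ∃ β : κ, ∀ c, ψ c = Algebra.trace (ZMod p) κ (β * c) := by
    have hnd := traceForm_nondegenerate (ZMod p) κ
    refine ⟨((Algebra.traceForm (ZMod p) κ).toDual hnd).symm (ψ.toZModLinearMap p), fun c => ?_⟩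
    have := LinearMap.BilinForm.apply_toDual_symm_apply (hB := hnd) (ψ.toZModLinearMap p) c
    rw [Algebra.traceForm_apply] at this
    rw [this]
    rfl
  have hβ0 : β ≠ 0 := by
    rintro rfl
    refine hψ (AddMonoidHom.ext fun c => ?_)
    rw [hβ c, zero_mul, map_zero]
    rfl
  have hcast : ∀ x : ZMod p, ZMod.castHom (dvd_refl p) κ x = algebraMap (ZMod p) κ x := fun x => by
    have : ZMod.castHom (dvd_refl p) κ = algebraMap (ZMod p) κ := Subsingleton.elim _ _
    rw [this]
  have hcard : Nat.card (ZMod p) = p := Nat.card_zmod p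
  have hq : Fintype.card κ = p ^ Module.finrank (ZMod p) κ := by
    have := Module.card_eq_pow_finrank (K := ZMod p) (V := κ)
    rwa [ZMod.card] at this
  have hn : 0 < Module.finrank (ZMod p) κ := Module.finrank_pos
  have h1 : ∀ c : κˣ, ((c : κ)⁻¹) * (ZMod.castHom (dvd_refl p) κ (ψ (c : κ))) =
      ∑ i ∈ Finset.range (Module.finrank (ZMod p) κ), β ^ (p ^ i) * (c : κ) ^ (p ^ i - 1) := by
    intro c
    rw [hcast, hβ, FiniteField.algebraMap_trace_eq_sum_pow, hcard, Finset.mul_sum]
    refine Finset.sum_congr rfl fun i _ => ?_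
    have hc : (c : κ) ≠ 0 := c.ne_zero
    have hpi : p ^ i = (p ^ i - 1) + 1 := by
      have : 0 < p ^ i := pow_pos (Fact.out : p.Prime).pos i
      omega
    rw [mul_pow]
    conv_lhs => rw [hpi, pow_succ (c : κ), ← hpi]
    field_simp
  have h2 : ∀ i ∈ Finset.range (Module.finrank (ZMod p) κ), i ≠ 0 →
      ∑ c : κˣ, β ^ (p ^ i) * (c : κ) ^ (p ^ i - 1) = 0 := by
    intro i hi hi0
    rw [← Finset.mul_sum]
    have h3 := FiniteField.sum_pow_units κ (p ^ i - 1)
    have h4 : ¬ (Fintype.card κ - 1 ∣ p ^ i - 1) := by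
      intro hdvd
      rw [hq] at hdvd
      have hi' := Finset.mem_range.1 hi
      have hlt : p ^ i < p ^ Module.finrank (ZMod p) κ :=
        Nat.pow_lt_pow_right (Fact.out : p.Prime).one_lt hi'
      have h1i : 1 < p ^ i := Nat.one_lt_pow hi0 (Fact.out : p.Prime).one_lt
      have := Nat.le_of_dvd (by omega) hdvd
      omega
    rw [if_neg h4] at h3
    have h5 : (∑ c : κˣ, (c : κ) ^ (p ^ i - 1)) = 0 := by
      rw [← h3]
      exact Finset.sum_congr (by ext x; simp) (fun _ _ => rfl)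
    rw [h5, mul_zero]
  have h6 : (∑ c : κˣ, ((c : κ)⁻¹) * (ZMod.castHom (dvd_refl p) κ (ψ (c : κ)))) = - β := by
    rw [Finset.sum_congr rfl fun c _ => h1 c, Finset.sum_comm,
      Finset.sum_eq_single_of_mem 0 (Finset.mem_range.2 hn) h2]
    simp only [pow_zero, pow_one, Nat.sub_self, mul_one, Finset.sum_const, Finset.card_univ,
      nsmul_eq_mul]
    have h7 : Fintype.card κˣ = Fintype.card κ - 1 := by
      rw [← Nat.card_eq_fintype_card, Nat.card_units, Nat.card_eq_fintype_card]
    rw [h7, Nat.cast_sub Fintype.card_pos, FiniteField.cast_card_eq_zero]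
    simp
  rw [h6]
  exact neg_ne_zero.2 hβ0

theorem exists_functional' {Y : Type*} [AddCommGroup Y] [Module (ZMod p) Y] (y : Y)
    (hy : y ≠ 0) : ∃ f : Y →+ ZMod p, f y ≠ 0 := by
  by_contra h
  push Not at h
  exact hy ((Module.forall_dual_apply_eq_zero_iff (ZMod p) y).1 fun g => h g.toAddMonoidHom)

theorem exists_functional {Y : Type*} [AddCommGroup Y] (hkill : ∀ x : Y, p • x = 0) (y : Y)
    (hy : y ≠ 0) : ∃ f : Y →+ ZMod p, f y ≠ 0 :=
  @exists_functional' p _ Y _ (AddCommGroup.zmodModule hkill) y hy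

theorem eigen_ne_zero {κ : Type*} [Field κ] [Fintype κ] [CharP κ p] [Fintype κˣ]
    {X : Type*} [AddCommGroup X] (b : κ →+ X) (hb : b ≠ 0) :
    (∑ c : κˣ, (WittVector.teichmuller p ((c : κ)⁻¹)) ⊗ₜ[ℤ] b (c : κ)) ≠
      (0 : WittVector p κ ⊗[ℤ] X) := by
  classical
  have hflat := witt_flat (p := p) κ
  have hp0 : ∀ c, (p : ℤ) • b c = 0 := by
    intro c
    rw [← map_zsmul]
    have : (p : ℤ) • c = 0 := by
      rw [zsmul_eq_mul]
      simp
    rw [this, map_zero]
  -- the subgroup killed by `p`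
  let X' : Submodule ℤ X := Submodule.torsionBy ℤ X p
  let b' : κ →+ X' :=
    { toFun := fun c => ⟨b c, (Submodule.mem_torsionBy_iff _ _).2 (hp0 c)⟩
      map_zero' := by ext; simp
      map_add' := fun x y => by ext; simp }
  have hb' : b' ≠ 0 := by
    intro h
    apply hb
    ext c
    have := congrArg (fun f : κ →+ X' => (f c : X)) h
    simpa [b'] using this
  have hkill : ∀ x : X', p • x = 0 := by
    intro x
    have := (Submodule.mem_torsionBy_iff _ _).1 x.2
    refine Subtype.ext ?_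
    rw [AddSubmonoidClass.coe_nsmul, ← natCast_zsmul]
    exact this
  obtain ⟨c0, hc0⟩ : ∃ c, b' c ≠ 0 := by
    by_contra h
    push Not at h
    exact hb' (AddMonoidHom.ext h)
  obtain ⟨f, hf⟩ := exists_functional hkill (b' c0) hc0
  let ψ : κ →+ ZMod p := f.comp b'
  have hψ : ψ ≠ 0 := fun h => hf (by
    have := congrArg (fun g : κ →+ ZMod p => g c0) h
    simpa [ψ] using this)
  intro hzero
  have h1 : (LinearMap.lTensor (WittVector p κ) X'.subtype)
      (∑ c : κˣ, (WittVector.teichmuller p ((c : κ)⁻¹)) ⊗ₜ[ℤ] b' (c : κ)) = 0 := by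
    rw [map_sum, ← hzero]
    refine Finset.sum_congr rfl fun c _ => ?_
    simp [b']
  have h2 : (∑ c : κˣ, (WittVector.teichmuller p ((c : κ)⁻¹)) ⊗ₜ[ℤ] b' (c : κ)) = 0 := by
    have hinj := Module.Flat.lTensor_preserves_injective_linearMap (M := WittVector p κ) X'.subtype
      (Submodule.injective_subtype X')
    exact hinj (by rw [h1, map_zero])
  -- the functional
  let g : WittVector p κ →ₗ[ℤ] X' →ₗ[ℤ] κ :=
    LinearMap.mk₂ ℤ (fun w x => WittVector.constantCoeff w *
        (ZMod.castHom (dvd_refl p) κ (f x)))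
      (fun a b c => by rw [map_add, add_mul])
      (fun m a c => by rw [map_zsmul, smul_mul_assoc])
      (fun a b c => by rw [map_add, map_add, mul_add])
      (fun m a c => by rw [map_zsmul, map_zsmul, mul_smul_comm])
  have h3 := congrArg (TensorProduct.lift g) h2
  rw [map_sum, map_zero] at h3
  apply sum_inv_psi_ne_zero ψ hψ
  rw [← h3]
  refine Finset.sum_congr rfl fun c _ => ?_
  rw [TensorProduct.lift.tmul]
  have h4 : WittVector.constantCoeff (WittVector.teichmuller p ((c : κ)⁻¹)) = (c : κ)⁻¹ :=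
    WittVector.teichmuller_coeff_zero p _
  simp only [g, LinearMap.mk₂_apply, h4]
  rfl

/-- The element `∑ [c⁻¹] ⊗ b(c)` is an eigenvector. -/
theorem eigen_action {κ : Type*} [Field κ] [Fintype κ] [CharP κ p] [Fintype κˣ]
    {X : Type*} [AddCommGroup X] (b : κ →+ X) (l : ℕ) (s : X →+ X) (a : κˣ)
    (hs : ∀ c : κ, s (b c) = b ((a : κ) ^ l * c)) :
    (LinearMap.lTensor (WittVector p κ) s.toIntLinearMap)
      (∑ c : κˣ, (WittVector.teichmuller p ((c : κ)⁻¹)) ⊗ₜ[ℤ] b (c : κ)) =
    ((WittVector.teichmuller p (a : κ)) ^ l) •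
      (∑ c : κˣ, (WittVector.teichmuller p ((c : κ)⁻¹)) ⊗ₜ[ℤ] b (c : κ)) := by
  rw [map_sum, Finset.smul_sum]
  refine Fintype.sum_equiv (Equiv.mulLeft (a ^ l)) _ _ fun c => ?_
  rw [LinearMap.lTensor_tmul, AddMonoidHom.coe_toIntLinearMap, hs, TensorProduct.smul_tmul',
    smul_eq_mul, ← map_pow, ← map_mul]
  simp only [Equiv.coe_mulLeft, Units.val_mul, Units.val_pow_eq_pow_val]
  congr 2
  have ha : (a : κ) ≠ 0 := a.ne_zero
  have hc : (c : κ) ≠ 0 := c.ne_zero
  field_simp

end Pool.Agent.D0H54.GC
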