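import Pool.Agent.D0H54.Gk.Fin2

set_option linter.unusedSectionVars false

namespace Pool.Agent.D0H54.GC

open Polynomial Finset Pool.Agent.D0H54.Gk

section coeffs

variable (k : Type*) [Field k] [Fintype k]

/-- the coefficients of the Carlitz polynomial of `T^n`: `C_{T^n}(x) = ∑ cf n i x^(q^i)` -/
noncomputable def cf : ℕ → ℕ → k[X]
  | 0, 0 => 1
  | 0, _ + 1 => 0
  | n + 1, 0 => X * cf n 0
  | n + 1, i + 1 => X * cf n (i + 1) + cf n i ^ Fintype.card k

lemma cf_zero (n : ℕ) : cf k n 0 = X ^ n := by
  induction n with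
  | zero => rw [cf, pow_zero]
  | succ n ih => rw [cf, ih, pow_succ, mul_comm]

lemma cf_gt (n i : ℕ) (h : n < i) : cf k n i = 0 := by
  induction n generalizing i with
  | zero =>
    obtain ⟨i, rfl⟩ : ∃ j, i = j + 1 := ⟨i - 1, by omega⟩
    rw [cf]
  | succ n ih =>
    obtain ⟨i, rfl⟩ : ∃ j, i = j + 1 := ⟨i - 1, by omega⟩
    rw [cf, ih _ (by omega), ih _ (by omega), mul_zero, zero_pow Fintype.card_ne_zero, add_zero]

lemma cf_self (n : ℕ) : cf k n n = 1 := by
  induction n with
  | zero => rw [cf]
  | succ n ih => rw [cf, ih, cf_gt k n (n + 1) (by omega), mul_zero, one_pow, zero_add]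

lemma add_pow_q {R : Type*} [CommRing R] [Algebra k R] (n : ℕ) (x y : R) :
    (x + y) ^ (Fintype.card k ^ n) = x ^ (Fintype.card k ^ n) + y ^ (Fintype.card k ^ n) := by
  rcases subsingleton_or_nontrivial R with hR | hR
  · exact Subsingleton.elim _ _
  obtain ⟨p, hp⟩ := CharP.exists k
  have hp1 := CharP.char_is_prime k p
  have : Fact p.Prime := ⟨hp1⟩
  have : CharP R p := charP_of_injective_algebraMap (algebraMap k R).injective p
  obtain ⟨⟨m, hm⟩, _, h2⟩ := FiniteField.card k p
  have h3 : Fintype.card k = p ^ m := h2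
  rw [h3, ← pow_mul, add_pow_char_pow]

lemma sub_pow_q {R : Type*} [CommRing R] [Algebra k R] (n : ℕ) (x y : R) :
    (x - y) ^ (Fintype.card k ^ n) = x ^ (Fintype.card k ^ n) - y ^ (Fintype.card k ^ n) := by
  have h := add_pow_q k n (x - y) y
  rw [sub_add_cancel] at h
  rw [h]; ring

lemma sum_pow_q {R ι : Type*} [CommRing R] [Algebra k R] (n : ℕ) (s : Finset ι) (f : ι → R) :
    (∑ i ∈ s, f i) ^ (Fintype.card k ^ n) = ∑ i ∈ s, f i ^ (Fintype.card k ^ n) := by
  classical
  induction s using Finset.induction_on with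
  | empty => simp [Fintype.card_ne_zero]
  | insert a s ha ih => rw [sum_insert ha, sum_insert ha, add_pow_q, ih]

lemma cf_rec (n i : ℕ) : (X ^ (Fintype.card k ^ (i + 1)) - X) * cf k n (i + 1) =
    cf k n i ^ Fintype.card k - cf k n i := by
  induction n generalizing i with
  | zero =>
    rcases i with _ | i
    · simp [cf]
    · simp [cf, Fintype.card_ne_zero]
  | succ n ih =>
    rcases i with _ | i
    · have h1 := ih 0
      simp only [zero_add, pow_one] at h1 ⊢
      rw [cf, cf, mul_pow]
      linear_combination X * h1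
    · have h1 := ih i
      have h2 := ih (i + 1)
      have h3 := sub_pow_q k 1 (cf k n i ^ Fintype.card k) (cf k n i)
      rw [← h1, pow_one, mul_pow] at h3
      have h4 := sub_pow_q k 1 (X ^ Fintype.card k ^ (i + 1)) (X : k[X])
      rw [pow_one, ← pow_mul, ← pow_succ] at h4
      have h5 := add_pow_q k 1 (X * cf k n (i + 1)) (cf k n i ^ Fintype.card k)
      rw [pow_one] at h5
      rw [h4] at h3
      rw [cf, cf, h5, mul_pow]
      linear_combination X * h2 + h3

/-- the coefficients of the Carlitz polynomial `C_a(x) = ∑ ca a i x^(q^i)` -/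
noncomputable def ca (a : k[X]) (i : ℕ) : k[X] := ∑ j ∈ range (a.natDegree + 1), C (a.coeff j) * cf k j i

lemma ca_zero (a : k[X]) : ca k a 0 = a := by
  conv_rhs => rw [a.as_sum_range_C_mul_X_pow]
  rw [ca]
  exact sum_congr rfl fun j _ => by rw [cf_zero]

lemma ca_gt (a : k[X]) (i : ℕ) (h : a.natDegree < i) : ca k a i = 0 := by
  rw [ca]
  refine sum_eq_zero fun j hj => ?_
  rw [mem_range] at hj
  rw [cf_gt k j i (by omega), mul_zero]

lemma ca_natDegree (a : k[X]) : ca k a a.natDegree = C a.leadingCoeff := by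
  rw [ca, sum_range_succ, sum_eq_zero, zero_add, cf_self, mul_one]
  · rfl
  · intro j hj
    rw [mem_range] at hj
    rw [cf_gt k j _ hj, mul_zero]

lemma ca_rec (a : k[X]) (i : ℕ) : (X ^ (Fintype.card k ^ (i + 1)) - X) * ca k a (i + 1) =
    ca k a i ^ Fintype.card k - ca k a i := by
  have h := sum_pow_q k 1 (range (a.natDegree + 1)) (fun j => C (a.coeff j) * cf k j i)
  rw [pow_one] at h
  rw [ca, ca, h, ← sum_sub_distrib, mul_sum]
  refine sum_congr rfl fun j _ => ?_
  rw [mul_left_comm, cf_rec, mul_pow, ← C_pow, FiniteField.pow_card]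
  ring

lemma dvd_ca (w : k[X]) (hirr : Irreducible w) (i : ℕ) (hi : i < w.natDegree) : w ∣ ca k w i := by
  induction i with
  | zero => rw [ca_zero]
  | succ i ih =>
    have h1 := ih (by omega)
    have h2 : w ∣ (X ^ (Fintype.card k ^ (i + 1)) - X) * ca k w (i + 1) := by
      rw [ca_rec]
      exact dvd_sub (h1.pow Fintype.card_ne_zero) h1
    rcases hirr.prime.dvd_or_dvd h2 with h3 | h3
    · exfalso
      rw [← Nat.card_eq_fintype_card] at h3
      have h4 := hirr.natDegree_dvd_of_dvd_X_pow_card_pow_sub_X h3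
      exact absurd (Nat.le_of_dvd (by omega) h4) (by omega)
    · exact h3

variable {F : Type*} [Field F] [Algebra (RatFunc k) F]

lemma cT_iter (n : ℕ) (x : F) : (cT k)^[n] x =
    ∑ i ∈ range (n + 1), al k F (cf k n i) * x ^ (Fintype.card k ^ i) := by
  let _ : Algebra k F := ((algebraMap (RatFunc k) F).comp RatFunc.C).toAlgebra
  induction n with
  | zero => simp [cf]
  | succ n ih =>
    rw [Function.iterate_succ_apply', ih, cT]
    have h := sum_pow_q k 1 (range (n + 1)) (fun i => al k F (cf k n i) * x ^ (Fintype.card k ^ i))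
    rw [pow_one] at h
    rw [h, sum_range_succ' (fun i => al k F (cf k (n + 1) i) * x ^ (Fintype.card k ^ i)), mul_sum,
      sum_range_succ' (fun i => algebraMap (RatFunc k) F RatFunc.X * (al k F (cf k n i) * x ^ (Fintype.card k ^ i)))]
    have e1 : ∀ i, al k F (cf k (n + 1) (i + 1)) * x ^ (Fintype.card k ^ (i + 1)) =
        algebraMap (RatFunc k) F RatFunc.X * (al k F (cf k n (i + 1)) * x ^ (Fintype.card k ^ (i + 1))) +
        (al k F (cf k n i) * x ^ (Fintype.card k ^ i)) ^ Fintype.card k := by
      intro i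
      rw [cf, map_add, map_mul, map_pow, al_X, mul_pow, ← pow_mul, ← pow_succ]
      ring
    simp_rw [e1]
    rw [sum_add_distrib]
    have e2 : ∑ i ∈ range (n + 1), algebraMap (RatFunc k) F RatFunc.X *
        (al k F (cf k n (i + 1)) * x ^ (Fintype.card k ^ (i + 1))) =
        ∑ i ∈ range n, algebraMap (RatFunc k) F RatFunc.X *
        (al k F (cf k n (i + 1)) * x ^ (Fintype.card k ^ (i + 1))) := by
      rw [sum_range_succ, cf_gt k n (n + 1) (by omega), map_zero, zero_mul, mul_zero, add_zero]
    rw [e2]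
    have e3 : al k F (cf k (n + 1) 0) = algebraMap (RatFunc k) F RatFunc.X * al k F (cf k n 0) := by
      rw [cf, map_mul, al_X]
    rw [e3]
    ring

lemma cAct_eq (a : k[X]) (x : F) : cAct k a x =
    ∑ i ∈ range (a.natDegree + 1), al k F (ca k a i) * x ^ (Fintype.card k ^ i) := by
  rw [cAct, Polynomial.sum_over_range _ (by intro n; simp)]
  have e1 : ∀ j ∈ range (a.natDegree + 1), algebraMap (RatFunc k) F (RatFunc.C (a.coeff j)) * (cT k)^[j] x =
      ∑ i ∈ range (a.natDegree + 1), al k F (C (a.coeff j) * cf k j i) * x ^ (Fintype.card k ^ i) := by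
    intro j hj
    rw [mem_range] at hj
    rw [cT_iter, mul_sum]
    have e2 : ∑ i ∈ range (a.natDegree + 1), al k F (C (a.coeff j) * cf k j i) * x ^ (Fintype.card k ^ i) =
        ∑ i ∈ range (j + 1), al k F (C (a.coeff j) * cf k j i) * x ^ (Fintype.card k ^ i) := by
      symm
      refine sum_subset (range_subset_range.2 (by omega)) fun i _ hi => ?_
      rw [mem_range, not_lt] at hi
      rw [cf_gt k j i (by omega), mul_zero, map_zero, zero_mul]
    rw [e2]
    refine sum_congr rfl fun i _ => ?_
    rw [map_mul, al_C, mul_assoc]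
  rw [sum_congr rfl e1, sum_comm]
  refine sum_congr rfl fun i _ => ?_
  rw [ca, map_sum, sum_mul]

end coeffs

section Q

variable (k : Type*) [Field k] [Fintype k]

/-- the Carlitz polynomial of `a` divided by its variable -/
noncomputable def Qp (a : k[X]) : Polynomial (Polynomial k) :=
  ∑ i ∈ range (a.natDegree + 1), C (ca k a i) * X ^ (Fintype.card k ^ i - 1)

lemma two_le_q : 2 ≤ Fintype.card k := Fintype.one_lt_card

lemma pow_q_inj {i j : ℕ} (h : Fintype.card k ^ i - 1 = Fintype.card k ^ j - 1) : i = j := by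
  have h1 : 1 ≤ Fintype.card k ^ i := Nat.one_le_pow _ _ Fintype.card_pos
  have h2 : 1 ≤ Fintype.card k ^ j := Nat.one_le_pow _ _ Fintype.card_pos
  exact Nat.pow_right_injective (two_le_q k) (by simp only; omega)

lemma Qp_coeff_self (a : k[X]) (i : ℕ) (hi : i ≤ a.natDegree) :
    (Qp k a).coeff (Fintype.card k ^ i - 1) = ca k a i := by
  rw [Qp, finsetSum_coeff, sum_eq_single i]
  · rw [coeff_C_mul, coeff_X_pow, if_pos rfl, mul_one]
  · intro j _ hj
    rw [coeff_C_mul, coeff_X_pow, if_neg (fun h => hj (pow_q_inj k h).symm), mul_zero]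
  · intro h
    exact absurd (mem_range.2 (by omega)) h

lemma Qp_coeff_zero (a : k[X]) : (Qp k a).coeff 0 = a := by
  have h := Qp_coeff_self k a 0 (Nat.zero_le _)
  rwa [pow_zero, Nat.sub_self, ca_zero] at h

lemma Qp_natDegree_le (a : k[X]) : (Qp k a).natDegree ≤ Fintype.card k ^ a.natDegree - 1 := by
  rw [Qp]
  refine natDegree_sum_le_of_forall_le _ _ fun i hi => ?_
  rw [mem_range] at hi
  refine (natDegree_C_mul_X_pow_le _ _).trans ?_
  have : Fintype.card k ^ i ≤ Fintype.card k ^ a.natDegree := Nat.pow_le_pow_right Fintype.card_pos (by omega)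
  omega

lemma Qp_monic (w : k[X]) (hw : w.Monic) : (Qp k w).Monic := by
  refine monic_of_natDegree_le_of_coeff_eq_one _ (Qp_natDegree_le k w) ?_
  rw [Qp_coeff_self k w _ le_rfl, ca_natDegree, hw.leadingCoeff, C_1]

lemma Qp_natDegree (w : k[X]) (hw : w.Monic) : (Qp k w).natDegree = Fintype.card k ^ w.natDegree - 1 := by
  refine le_antisymm (Qp_natDegree_le k w) (le_natDegree_of_ne_zero ?_)
  rw [Qp_coeff_self k w _ le_rfl, ca_natDegree, hw.leadingCoeff, C_1]
  exact one_ne_zero

lemma Qp_coeff_dvd (w : k[X]) (hirr : Irreducible w) (n : ℕ)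
    (hn : n < Fintype.card k ^ w.natDegree - 1) : w ∣ (Qp k w).coeff n := by
  rw [Qp, finsetSum_coeff]
  refine dvd_sum fun i hi => ?_
  rw [coeff_C_mul, coeff_X_pow]
  by_cases h : n = Fintype.card k ^ i - 1
  · rw [if_pos h, mul_one]
    refine dvd_ca k w hirr i ?_
    by_contra h1
    rw [not_lt] at h1
    have : Fintype.card k ^ w.natDegree ≤ Fintype.card k ^ i := Nat.pow_le_pow_right Fintype.card_pos h1
    omega
  · rw [if_neg h, mul_zero]
    exact dvd_zero _

lemma Qp_eisenstein (w : k[X]) (hw : w.Monic) (hirr : Irreducible w) :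
    (Qp k w).IsEisensteinAt (Submodule.span k[X] {w}) := by
  refine ⟨?_, fun {n} hn => ?_, ?_⟩
  · rw [(Qp_monic k w hw).leadingCoeff]
    change (1 : k[X]) ∉ Ideal.span {w}
    rw [Ideal.mem_span_singleton]
    exact fun h => hirr.not_isUnit (isUnit_of_dvd_one h)
  · rw [Qp_natDegree k w hw] at hn
    change _ ∈ Ideal.span {w}
    rw [Ideal.mem_span_singleton]
    exact Qp_coeff_dvd k w hirr n hn
  · rw [Qp_coeff_zero]
    change w ∉ (Ideal.span {w}) ^ 2
    rw [Ideal.span_singleton_pow, Ideal.mem_span_singleton]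
    intro h
    have h1 : w ^ 2 ∣ w ^ 1 := by rwa [pow_one]
    have := (pow_dvd_pow_iff hirr.ne_zero hirr.not_isUnit).1 h1
    omega

lemma natDegree_pos_w (w : k[X]) (hirr : Irreducible w) : 0 < w.natDegree := hirr.natDegree_pos

lemma N_pos (w : k[X]) (hirr : Irreducible w) : 0 < Fintype.card k ^ w.natDegree - 1 := by
  have h1 : 2 ^ 1 ≤ Fintype.card k ^ w.natDegree :=
    (Nat.pow_le_pow_left (two_le_q k) 1).trans (Nat.pow_le_pow_right Fintype.card_pos hirr.natDegree_pos)
  omega

lemma Qp_irreducible (w : k[X]) (hw : w.Monic) (hirr : Irreducible w) : Irreducible (Qp k w) := by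
  refine (Qp_eisenstein k w hw hirr).irreducible ?_ (Qp_monic k w hw).isPrimitive ?_
  · exact (Ideal.span_singleton_prime hirr.ne_zero).2 hirr.prime
  · rw [Qp_natDegree k w hw]; exact N_pos k w hirr

variable {F : Type*} [Field F] [Algebra (RatFunc k) F]

lemma Qp_eval (a : k[X]) (x : F) : x * (Qp k a).eval₂ (al k F) x = cAct k a x := by
  rw [Qp, eval₂_finsetSum, cAct_eq, mul_sum]
  refine sum_congr rfl fun i _ => ?_
  have h1 : 1 ≤ Fintype.card k ^ i := Nat.one_le_pow _ _ Fintype.card_pos
  rw [eval₂_mul, eval₂_C, eval₂_X_pow, mul_left_comm, ← pow_succ', Nat.sub_add_cancel h1]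

lemma Qp_eval_root (w : k[X]) (x : F) (hx : x ≠ 0) (h : cAct k w x = 0) :
    (Qp k w).eval₂ (al k F) x = 0 := by
  rw [← Qp_eval] at h
  exact (mul_eq_zero.1 h).resolve_left hx

/-- the full Carlitz polynomial in one variable -/
lemma XQp_natDegree (w : k[X]) (hw : w.Monic) :
    (X * Qp k w).natDegree = Fintype.card k ^ w.natDegree := by
  rw [natDegree_X_mul (Qp_monic k w hw).ne_zero, Qp_natDegree k w hw]
  have h1 : 1 ≤ Fintype.card k ^ w.natDegree := Nat.one_le_pow _ _ Fintype.card_pos
  omega

lemma XQp_derivative (w : k[X]) : (X * Qp k w).derivative = C w := by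
  obtain ⟨p, hp⟩ := CharP.exists k
  have hp1 := CharP.char_is_prime k p
  have : Fact p.Prime := ⟨hp1⟩
  have : CharP (k[X]) p := inferInstance
  obtain ⟨⟨m, hm⟩, _, h2⟩ := FiniteField.card k p
  have hq : Fintype.card k = p ^ m := h2
  have e : X * Qp k w = ∑ i ∈ range (w.natDegree + 1), C (ca k w i) * X ^ (Fintype.card k ^ i) := by
    rw [Qp, mul_sum]
    refine sum_congr rfl fun i _ => ?_
    have h1 : 1 ≤ Fintype.card k ^ i := Nat.one_le_pow _ _ Fintype.card_pos
    rw [mul_left_comm, ← pow_succ', Nat.sub_add_cancel h1]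
  rw [e, derivative_sum, sum_range_succ', sum_eq_zero, zero_add, ca_zero]
  · simp
  · intro i _
    rw [derivative_C_mul, derivative_X_pow]
    have : ((Fintype.card k ^ (i + 1) : ℕ) : k[X]) = 0 := by
      rw [CharP.cast_eq_zero_iff (k[X]) p, hq, ← pow_mul]
      exact dvd_pow_self p (Nat.mul_ne_zero (by omega) (by omega))
    rw [this]; simp

end Q

section tors

variable {k : Type*} [Field k] [Fintype k] {F : Type*} [Field F] [Algebra (RatFunc k) F]
  (w : k[X]) (hw : w.Monic) (hirr : Irreducible w) (lam : F) (hlam : lam ≠ 0)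
  (htor : cAct k w lam = 0)

include hirr hlam htor in
lemma cAct_eq_zero_iff (a : k[X]) : cAct k a lam = 0 ↔ w ∣ a := by
  constructor
  · intro h
    by_contra hn
    obtain ⟨u, v, huv⟩ := (hirr.coprime_iff_not_dvd.2 hn).symm
    apply hlam
    rw [← cAct_one k lam, ← huv, cAct_add, cAct_mul, cAct_mul, h, htor, cAct_zero', cAct_zero', add_zero]
  · rintro ⟨b, rfl⟩
    rw [mul_comm, cAct_mul, htor, cAct_zero']

lemma cAct_neg (a : k[X]) (x : F) : cAct k (-a) x = - cAct k a x := by
  have h := cAct_add k (-a) a x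
  rw [neg_add_cancel, cAct_zero] at h
  exact eq_neg_of_add_eq_zero_left h.symm

lemma cAct_sub (a b : k[X]) (x : F) : cAct k (a - b) x = cAct k a x - cAct k b x := by
  rw [sub_eq_add_neg, cAct_add, cAct_neg, sub_eq_add_neg]

/-- the torsion point attached to a residue polynomial -/
noncomputable def tp (w : k[X]) (lam : F) (c : Fin w.natDegree → k) : F :=
  cAct k ((degreeLTEquiv k w.natDegree).symm c : k[X]) lam

include hw hirr hlam htor in
lemma tp_injective : Function.Injective (tp w lam) := by
  intro c c' h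
  have h1 : cAct k (((degreeLTEquiv k w.natDegree).symm c : k[X]) -
      ((degreeLTEquiv k w.natDegree).symm c' : k[X])) lam = 0 := by
    rw [cAct_sub]
    exact sub_eq_zero.2 h
  rw [cAct_eq_zero_iff w hirr lam hlam htor] at h1
  have h2 : (((degreeLTEquiv k w.natDegree).symm c : k[X]) -
      ((degreeLTEquiv k w.natDegree).symm c' : k[X])) ∈ degreeLT k w.natDegree := by
    exact Submodule.sub_mem _ (Subtype.mem _) (Subtype.mem _)
  rw [mem_degreeLT, ← degree_eq_natDegree hw.ne_zero] at h2
  have h3 := eq_zero_of_dvd_of_degree_lt h1 h2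
  have h4 := sub_eq_zero.1 h3
  exact (degreeLTEquiv k w.natDegree).symm.injective (Subtype.ext h4)

lemma tp_root (c : Fin w.natDegree → k) (htor : cAct k w lam = 0) : cAct k w (tp w lam c) = 0 := by
  rw [tp, ← cAct_mul, mul_comm, cAct_mul, htor, cAct_zero']

include hw hirr hlam htor in
/-- every `w`-torsion point is a multiple of `lam` -/
lemma exists_of_torsion (x : F) (hx : cAct k w x = 0) : ∃ a : k[X], a.degree < w.degree ∧ x = cAct k a lam := by
  classical
  set P : F[X] := (X * Qp k w).map (al k F) with hP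
  have hPm : P.Monic := (monic_X.mul (Qp_monic k w hw)).map _
  have hPd : P.natDegree = Fintype.card k ^ w.natDegree := by
    rw [hP, (monic_X.mul (Qp_monic k w hw)).natDegree_map, XQp_natDegree k w hw]
  have hroot : ∀ y : F, cAct k w y = 0 → y ∈ P.roots.toFinset := by
    intro y hy
    rw [Multiset.mem_toFinset, mem_roots hPm.ne_zero, IsRoot.def, hP, eval_map, eval₂_mul, eval₂_X,
      Qp_eval, hy]
  let S : Finset F := univ.image (tp w lam)
  have hS : S.card = Fintype.card k ^ w.natDegree := by
    rw [card_image_of_injective _ (tp_injective w hw hirr lam hlam htor), card_univ, Fintype.card_fun,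
      Fintype.card_fin]
  have hSsub : S ⊆ P.roots.toFinset := by
    intro y hy
    obtain ⟨c, _, rfl⟩ := mem_image.1 hy
    exact hroot _ (tp_root w lam c htor)
  have hle : P.roots.toFinset.card ≤ S.card := by
    rw [hS, ← hPd]
    exact (Multiset.toFinset_card_le _).trans (card_roots' P)
  have heq := eq_of_subset_of_card_le hSsub hle
  have h1 := hroot x hx
  rw [← heq] at h1
  obtain ⟨c, _, hc⟩ := mem_image.1 h1
  refine ⟨((degreeLTEquiv k w.natDegree).symm c : k[X]), ?_, hc.symm⟩
  have h2 := ((degreeLTEquiv k w.natDegree).symm c).2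
  rwa [mem_degreeLT, ← degree_eq_natDegree hw.ne_zero] at h2

end tors

section alg

variable {k : Type*} [Field k] [Fintype k] {F : Type*} [Field F] [Algebra (RatFunc k) F]
  [Algebra k[X] F] [IsScalarTower k[X] (RatFunc k) F]
  (w : k[X]) (hw : w.Monic) (hirr : Irreducible w) (lam : F) (hlam : lam ≠ 0)
  (htor : cAct k w lam = 0) (hgen : IntermediateField.adjoin (RatFunc k) {lam} = ⊤)

lemma algebraMap_eq_al : algebraMap k[X] F = al k F := by
  rw [IsScalarTower.algebraMap_eq k[X] (RatFunc k) F]; rfl

include hw hlam htor in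
lemma lam_int : IsIntegral k[X] lam := by
  refine ⟨Qp k w, Qp_monic k w hw, ?_⟩
  rw [algebraMap_eq_al]
  exact Qp_eval_root k w lam hlam htor

include hw hirr hlam htor in
lemma minpoly_K : minpoly (RatFunc k) lam = (Qp k w).map (algebraMap k[X] (RatFunc k)) := by
  symm
  refine minpoly.eq_of_irreducible_of_monic ?_ ?_ ((Qp_monic k w hw).map _)
  · exact ((Qp_monic k w hw).irreducible_iff_irreducible_map_fraction_map).1 (Qp_irreducible k w hw hirr)
  · rw [aeval_map_algebraMap, aeval_def, algebraMap_eq_al]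
    exact Qp_eval_root k w lam hlam htor

include hw hirr hlam htor in
lemma minpoly_A : minpoly k[X] lam = Qp k w := by
  have h := minpoly.isIntegrallyClosed_eq_field_fractions' (RatFunc k) (lam_int w hw lam hlam htor)
  rw [minpoly_K w hw hirr lam hlam htor] at h
  exact (map_injective _ (RatFunc.algebraMap_injective k) h).symm

include hw hlam htor hgen in
lemma exists_pb : ∃ B : PowerBasis (RatFunc k) F, B.gen = lam := by
  have hint : IsIntegral (RatFunc k) lam := (lam_int w hw lam hlam htor).tower_top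
  have h1 : Algebra.adjoin (RatFunc k) {lam} = ⊤ := by
    rw [← IntermediateField.adjoin_simple_toSubalgebra_of_isAlgebraic hint.isAlgebraic, hgen,
      IntermediateField.top_toSubalgebra]
  exact ⟨PowerBasis.ofAdjoinEqTop hint h1, PowerBasis.ofAdjoinEqTop_gen hint h1⟩

include hw hirr hlam htor hgen in
lemma exists_aut (a : k[X]) (ha : ¬ w ∣ a) : ∃ s : F ≃ₐ[RatFunc k] F, s lam = cAct k a lam := by
  obtain ⟨B, hB⟩ := exists_pb w hw lam hlam htor hgen
  have h0 : cAct k a lam ≠ 0 := fun h => ha ((cAct_eq_zero_iff w hirr lam hlam htor a).1 h)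
  have h1 : cAct k w (cAct k a lam) = 0 := by rw [← cAct_mul, mul_comm, cAct_mul, htor, cAct_zero']
  have h2 : aeval (cAct k a lam) (minpoly (RatFunc k) B.gen) = 0 := by
    rw [hB, minpoly_K w hw hirr lam hlam htor, aeval_map_algebraMap, aeval_def, algebraMap_eq_al]
    exact Qp_eval_root k w _ h0 h1
  have : FiniteDimensional (RatFunc k) F := B.finite
  have h3 : Function.Bijective (B.lift _ h2) := Algebra.IsAlgebraic.algHom_bijective _
  refine ⟨AlgEquiv.ofBijective (B.lift _ h2) h3, ?_⟩
  have h4 := B.lift_gen _ h2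
  rw [hB] at h4
  exact h4

include hw hirr hlam htor in
lemma aut_form (s : F ≃ₐ[RatFunc k] F) : ∃ a : k[X], a.degree < w.degree ∧ ¬ w ∣ a ∧ s lam = cAct k a lam := by
  have h1 : cAct k w (s lam) = 0 := by
    have h := cAct_map (s : F →ₐ[RatFunc k] F) w lam
    rw [htor, map_zero] at h
    exact h
  obtain ⟨a, h2, h3⟩ := exists_of_torsion w hw hirr lam hlam htor _ h1
  refine ⟨a, h2, fun h => ?_, h3⟩
  rw [← cAct_eq_zero_iff w hirr lam hlam htor, ← h3] at h
  exact hlam ((map_eq_zero s).1 h)

include hw hirr hlam htor hgen in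
lemma finrank_F : Module.finrank (RatFunc k) F = Fintype.card k ^ w.natDegree - 1 := by
  obtain ⟨B, hB⟩ := exists_pb w hw lam hlam htor hgen
  rw [B.finrank, ← B.natDegree_minpoly, hB, minpoly_K w hw hirr lam hlam htor,
    (Qp_monic k w hw).natDegree_map, Qp_natDegree k w hw]

include hw hirr hlam htor hgen in
lemma isGalois_F : IsGalois (RatFunc k) F := by
  classical
  obtain ⟨B, hB⟩ := exists_pb w hw lam hlam htor hgen
  have : FiniteDimensional (RatFunc k) F := B.finite
  refine IsGalois.of_card_aut_eq_finrank _ _ ?_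
  rw [finrank_F w hw hirr lam hlam htor hgen]
  apply le_antisymm
  · rw [← finrank_F w hw hirr lam hlam htor hgen, Nat.card_eq_fintype_card]
    exact AlgEquiv.card_le
  · have h1 : ∀ c : {c : Fin w.natDegree → k // c ≠ 0}, ∃ s : F ≃ₐ[RatFunc k] F, s lam = tp w lam c.1 := by
      rintro ⟨c, hc⟩
      refine exists_aut w hw hirr lam hlam htor hgen _ fun h => hc ?_
      have h2 : tp w lam c = tp w lam 0 := by
        rw [tp, (cAct_eq_zero_iff w hirr lam hlam htor _).2 h, tp, map_zero, Submodule.coe_zero, cAct_zero]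
      exact tp_injective w hw hirr lam hlam htor h2
    choose f hf using h1
    have hinj : Function.Injective f := by
      intro c c' h
      apply Subtype.ext
      apply tp_injective w hw hirr lam hlam htor
      rw [← hf, ← hf, h]
    have h2 := Nat.card_le_card_of_injective f hinj
    rwa [Nat.card_eq_fintype_card, Fintype.card_subtype_compl, Fintype.card_fun, Fintype.card_fin,
      Fintype.card_subtype_eq] at h2

include hw hirr hlam htor hgen in
/-- the ring of integers of `F` is `A[lam]` -/
lemma int_mem_adjoin (z : F) (hz : IsIntegral k[X] z) : z ∈ Algebra.adjoin k[X] ({lam} : Set F) := by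
  obtain ⟨B, hB⟩ := exists_pb w hw lam hlam htor hgen
  have hfin : FiniteDimensional (RatFunc k) F := B.finite
  have hsep : Algebra.IsSeparable (RatFunc k) F := F_separable k w hw.ne_zero lam htor hgen
  have hint : IsIntegral k[X] B.gen := by rw [hB]; exact lam_int w hw lam hlam htor
  -- the discriminant divides a power of `w`
  have hder : aeval lam (minpoly (RatFunc k) B.gen).derivative * lam = al k F w := by
    rw [hB, minpoly_K w hw hirr lam hlam htor, derivative_map, aeval_map_algebraMap, aeval_def,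
      algebraMap_eq_al]
    have h := congrArg (eval₂ (al k F) lam) (XQp_derivative k w)
    rw [derivative_mul, derivative_X, one_mul, eval₂_add, eval₂_mul, eval₂_X, eval₂_C,
      Qp_eval_root k w lam hlam htor, zero_add, mul_comm] at h
    exact h
  obtain ⟨g, hg⟩ : ∃ g : k[X], algebraMap k[X] (RatFunc k) g = Algebra.norm (RatFunc k) lam := by
    have h := Algebra.isIntegral_norm (RatFunc k) (lam_int w hw lam hlam htor)
    exact IsIntegrallyClosed.isIntegral_iff.1 h
  have hnorm : Algebra.norm (RatFunc k) (aeval B.gen (minpoly (RatFunc k) B.gen).derivative) *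
      algebraMap k[X] (RatFunc k) g = algebraMap k[X] (RatFunc k) w ^ Module.finrank (RatFunc k) F := by
    rw [hg, ← map_mul]
    have : aeval B.gen (minpoly (RatFunc k) B.gen).derivative = aeval lam (minpoly (RatFunc k) B.gen).derivative := by
      rw [hB]
    rw [this, hder, al_apply, Algebra.norm_algebraMap]
  have hdisc := Algebra.discr_mul_isIntegral_mem_adjoin (RatFunc k) hint hz
  rw [Algebra.discr_powerBasis_eq_norm] at hdisc
  have h1 : w ^ (Module.finrank (RatFunc k) F) • z ∈ Algebra.adjoin k[X] ({B.gen} : Set F) := by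
    set m := Module.finrank (RatFunc k) F * (Module.finrank (RatFunc k) F - 1) / 2 with hm
    have h2 := Subalgebra.smul_mem _ hdisc ((-1) ^ m * g)
    convert h2 using 1
    rw [← algebraMap_smul (RatFunc k) (w ^ _) z, ← algebraMap_smul (RatFunc k) ((-1) ^ m * g), smul_smul]
    congr 1
    rw [map_pow, ← hnorm, map_mul, map_pow, map_neg, map_one]
    have h3 : ((-1 : RatFunc k) ^ m) * ((-1 : RatFunc k) ^ m) = 1 := by
      rw [← mul_pow]; simp
    linear_combination (-(Algebra.norm (RatFunc k) (aeval B.gen (minpoly (RatFunc k) B.gen).derivative)) *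
      algebraMap k[X] (RatFunc k) g) * h3
  have h4 := mem_adjoin_of_smul_prime_pow_smul_of_minpoly_isEisensteinAt (K := RatFunc k)
    hirr.prime hint hz h1 (by rw [hB, minpoly_A w hw hirr lam hlam htor]; exact Qp_eisenstein k w hw hirr)
  rwa [hB] at h4

end alg

section main

variable {k : Type*} [Field k] [Fintype k] {F : Type*} [Field F] [Algebra (RatFunc k) F]
  (w : k[X]) (hw : w.Monic) (hirr : Irreducible w) (lam : F) (hlam : lam ≠ 0)
  (htor : cAct k w lam = 0) (hgen : IntermediateField.adjoin (RatFunc k) {lam} = ⊤)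

include hw hirr hlam htor hgen in
/-- R1a: the automorphism `lam ↦ C_a(lam)` -/
theorem R1a (a : k[X]) (ha : ¬ w ∣ a) : ∃ s : F ≃ₐ[RatFunc k] F, s lam = cAct k a lam := by
  let _ : Algebra k[X] F := (al k F).toAlgebra
  have : IsScalarTower k[X] (RatFunc k) F := IsScalarTower.of_algebraMap_eq fun _ => rfl
  exact exists_aut w hw hirr lam hlam htor hgen a ha

include hw hirr hlam htor in
/-- every automorphism is of this form -/
theorem R1a' (s : F ≃ₐ[RatFunc k] F) :
    ∃ a : k[X], a.degree < w.degree ∧ ¬ w ∣ a ∧ s lam = cAct k a lam := by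
  let _ : Algebra k[X] F := (al k F).toAlgebra
  have : IsScalarTower k[X] (RatFunc k) F := IsScalarTower.of_algebraMap_eq fun _ => rfl
  exact aut_form w hw hirr lam hlam htor s

include hw hlam htor hgen in
theorem R1_finite : FiniteDimensional (RatFunc k) F := by
  let _ : Algebra k[X] F := (al k F).toAlgebra
  have : IsScalarTower k[X] (RatFunc k) F := IsScalarTower.of_algebraMap_eq fun _ => rfl
  obtain ⟨B, _⟩ := exists_pb w hw lam hlam htor hgen
  exact B.finite

include hw hirr hlam htor hgen in
theorem R1_galois : IsGalois (RatFunc k) F := by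
  let _ : Algebra k[X] F := (al k F).toAlgebra
  have : IsScalarTower k[X] (RatFunc k) F := IsScalarTower.of_algebraMap_eq fun _ => rfl
  exact isGalois_F w hw hirr lam hlam htor hgen

include hw hirr hlam htor hgen in
theorem R1_finrank : Module.finrank (RatFunc k) F = Fintype.card k ^ w.natDegree - 1 := by
  let _ : Algebra k[X] F := (al k F).toAlgebra
  have : IsScalarTower k[X] (RatFunc k) F := IsScalarTower.of_algebraMap_eq fun _ => rfl
  exact finrank_F w hw hirr lam hlam htor hgen

include hw hirr hlam htor hgen in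
/-- R1b: the integral elements are the polynomials in `lam` -/
theorem R1b (z : F) (hz : (al k F).IsIntegralElem z) :
    ∃ f : Polynomial (Polynomial k), z = f.eval₂ (al k F) lam := by
  let _ : Algebra k[X] F := (al k F).toAlgebra
  have : IsScalarTower k[X] (RatFunc k) F := IsScalarTower.of_algebraMap_eq fun _ => rfl
  have h := int_mem_adjoin w hw hirr lam hlam htor hgen z hz
  rw [Algebra.adjoin_singleton_eq_range_aeval] at h
  obtain ⟨f, hf⟩ := h
  exact ⟨f, hf.symm⟩

lemma int_al (a : k[X]) : (al k F).IsIntegralElem (al k F a) :=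
  ⟨X - C a, monic_X_sub_C a, by simp⟩

lemma int_mul {x y : F} (hx : (al k F).IsIntegralElem x) (hy : (al k F).IsIntegralElem y) :
    (al k F).IsIntegralElem (x * y) := RingHom.IsIntegralElem.mul _ hx hy

lemma int_add {x y : F} (hx : (al k F).IsIntegralElem x) (hy : (al k F).IsIntegralElem y) :
    (al k F).IsIntegralElem (x + y) := RingHom.IsIntegralElem.add _ hx hy

lemma int_neg {x : F} (hx : (al k F).IsIntegralElem x) : (al k F).IsIntegralElem (-x) :=
  RingHom.IsIntegralElem.neg _ hx

lemma int_one : (al k F).IsIntegralElem 1 := by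
  have := int_al (F := F) (1 : k[X]); rwa [map_one] at this

lemma int_pow {x : F} (hx : (al k F).IsIntegralElem x) (n : ℕ) : (al k F).IsIntegralElem (x ^ n) := by
  induction n with
  | zero => rw [pow_zero]; exact int_one
  | succ n ih => rw [pow_succ]; exact int_mul ih hx

lemma int_sum {ι : Type*} (s : Finset ι) (f : ι → F) (h : ∀ i ∈ s, (al k F).IsIntegralElem (f i)) :
    (al k F).IsIntegralElem (∑ i ∈ s, f i) := by
  classical
  induction s using Finset.induction_on with
  | empty =>
    rw [sum_empty]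
    have := int_al (F := F) (0 : k[X]); rwa [map_zero] at this
  | insert a s ha ih =>
    rw [sum_insert ha]
    exact int_add (h a (mem_insert_self _ _)) (ih fun i hi => h i (mem_insert_of_mem hi))

lemma int_prod {ι : Type*} (s : Finset ι) (f : ι → F) (h : ∀ i ∈ s, (al k F).IsIntegralElem (f i)) :
    (al k F).IsIntegralElem (∏ i ∈ s, f i) := by
  classical
  induction s using Finset.induction_on with
  | empty => rw [prod_empty]; exact int_one
  | insert a s ha ih =>
    rw [prod_insert ha]
    exact int_mul (h a (mem_insert_self _ _)) (ih fun i hi => h i (mem_insert_of_mem hi))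

lemma int_eval (f : Polynomial (Polynomial k)) {x : F} (hx : (al k F).IsIntegralElem x) :
    (al k F).IsIntegralElem (f.eval₂ (al k F) x) := by
  rw [eval₂_eq_sum_range]
  exact int_sum _ _ fun i _ => int_mul (int_al _) (int_pow hx i)

include hw hlam htor in
lemma int_lam : (al k F).IsIntegralElem lam :=
  ⟨Qp k w, Qp_monic k w hw, Qp_eval_root k w lam hlam htor⟩

include hw hirr hlam htor hgen in
/-- R1c: `lam O ∩ A = w A` -/
theorem R1c (a : k[X]) (h : ∃ y, (al k F).IsIntegralElem y ∧ al k F a = lam * y) : w ∣ a := by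
  obtain ⟨y, hy, hay⟩ := h
  obtain ⟨f, hf⟩ := R1b w hw hirr lam hlam htor hgen y hy
  let _ : Algebra k[X] F := (al k F).toAlgebra
  have : IsScalarTower k[X] (RatFunc k) F := IsScalarTower.of_algebraMap_eq fun _ => rfl
  have h1 : aeval lam (X * f - C a) = 0 := by
    rw [aeval_def, eval₂_sub, eval₂_mul, eval₂_X, eval₂_C]
    change lam * f.eval₂ (al k F) lam - al k F a = 0
    rw [← hf, hay, sub_self]
  have hinj : FaithfulSMul k[X] F := (faithfulSMul_iff_algebraMap_injective k[X] F).2 (al_inj k)
  have htf : Module.IsTorsionFree k[X] F := inferInstance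
  have h2 := minpoly.isIntegrallyClosed_dvd (lam_int w hw lam hlam htor) h1
  rw [minpoly_A w hw hirr lam hlam htor] at h2
  obtain ⟨g, hg⟩ := h2
  have h3 := congrArg (fun p => p.coeff 0) hg
  simp only [coeff_sub, mul_coeff_zero, coeff_X_zero, zero_mul, coeff_C_zero, Qp_coeff_zero, zero_sub] at h3
  exact ⟨-g.coeff 0, by linear_combination -h3⟩

include hw hirr hlam htor in
/-- R1e: the cyclotomic units -/
theorem R1e (a : k[X]) (ha : ¬ w ∣ a) : ∃ e e' : F, (al k F).IsIntegralElem e ∧
    (al k F).IsIntegralElem e' ∧ e * e' = 1 ∧ cAct k a lam = e * lam := by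
  obtain ⟨v, u, huv⟩ := hirr.coprime_iff_not_dvd.2 ha
  have hl := int_lam w hw lam hlam htor
  have h1 : cAct k a lam = (Qp k a).eval₂ (al k F) lam * lam := by rw [← Qp_eval, mul_comm]
  have ha' : (al k F).IsIntegralElem (cAct k a lam) := by
    rw [h1]; exact int_mul (int_eval _ hl) hl
  have h2 : lam = (Qp k u).eval₂ (al k F) (cAct k a lam) * cAct k a lam := by
    rw [mul_comm, Qp_eval, ← cAct_mul]
    have : u * a = 1 - v * w := by linear_combination huv
    rw [this, cAct_sub, cAct_one, cAct_mul, htor, cAct_zero', sub_zero]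
  refine ⟨_, (Qp k u).eval₂ (al k F) (cAct k a lam), int_eval _ hl, int_eval _ ha', ?_, h1⟩
  have h3 : lam = (Qp k u).eval₂ (al k F) (cAct k a lam) * ((Qp k a).eval₂ (al k F) lam * lam) := by
    rw [← h1]; exact h2
  have h4 : lam * 1 = lam * ((Qp k a).eval₂ (al k F) lam * (Qp k u).eval₂ (al k F) (cAct k a lam)) := by
    linear_combination h3
  exact (mul_left_cancel₀ hlam h4).symm

include hw hirr hlam htor hgen in
/-- R1d: `w` is a unit times `lam^N` -/
theorem R1d : ∃ e e' : F, (al k F).IsIntegralElem e ∧ (al k F).IsIntegralElem e' ∧ e * e' = 1 ∧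
    al k F w = e * lam ^ (Fintype.card k ^ w.natDegree - 1) := by
  classical
  have hfin := R1_finite w hw lam hlam htor hgen
  have hgal := R1_galois w hw hirr lam hlam htor hgen
  have hunit : ∀ s : F ≃ₐ[RatFunc k] F, ∃ e e' : F, (al k F).IsIntegralElem e ∧
      (al k F).IsIntegralElem e' ∧ e * e' = 1 ∧ s lam = e * lam := by
    intro s
    obtain ⟨a, _, ha, h1⟩ := R1a' w hw hirr lam hlam htor s
    obtain ⟨e, e', h2, h3, h4, h5⟩ := R1e w hw hirr lam hlam htor a ha
    exact ⟨e, e', h2, h3, h4, by rw [h1, h5]⟩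
  choose e e' he he' hee hs using hunit
  have hnorm : al k F w = (-1) ^ (Fintype.card k ^ w.natDegree - 1) *
      algebraMap (RatFunc k) F (Algebra.norm (RatFunc k) lam) := by
    let _ : Algebra k[X] F := (al k F).toAlgebra
    have : IsScalarTower k[X] (RatFunc k) F := IsScalarTower.of_algebraMap_eq fun _ => rfl
    obtain ⟨B, hB⟩ := exists_pb w hw lam hlam htor hgen
    have h := Algebra.PowerBasis.norm_gen_eq_coeff_zero_minpoly B
    rw [hB, minpoly_K w hw hirr lam hlam htor, coeff_map, Qp_coeff_zero, ← B.finrank,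
      finrank_F w hw hirr lam hlam htor hgen] at h
    rw [h, map_mul, map_pow, map_neg, map_one, ← mul_assoc, ← mul_pow]
    simp [al_apply]
  have hcard : Fintype.card (F ≃ₐ[RatFunc k] F) = Fintype.card k ^ w.natDegree - 1 := by
    rw [← Nat.card_eq_fintype_card, IsGalois.card_aut_eq_finrank, R1_finrank w hw hirr lam hlam htor hgen]
  have hprod : algebraMap (RatFunc k) F (Algebra.norm (RatFunc k) lam) =
      (∏ s, e s) * lam ^ (Fintype.card k ^ w.natDegree - 1) := by
    rw [Algebra.norm_eq_prod_automorphisms, ← hcard, ← card_univ, ← prod_const, ← prod_mul_distrib]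
    exact prod_congr rfl fun s _ => hs s
  refine ⟨(-1) ^ (Fintype.card k ^ w.natDegree - 1) * ∏ s, e s,
    (-1) ^ (Fintype.card k ^ w.natDegree - 1) * ∏ s, e' s,
    int_mul (int_pow (int_neg int_one) _) (int_prod _ _ fun s _ => he s),
    int_mul (int_pow (int_neg int_one) _) (int_prod _ _ fun s _ => he' s), ?_, ?_⟩
  · rw [mul_mul_mul_comm, ← prod_mul_distrib, prod_congr rfl fun s _ => hee s, prod_const_one,
      mul_one, ← mul_pow]
    simp
  · rw [hnorm, hprod, mul_assoc]

end main

end Pool.Agent.D0H54.GC
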