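import Mathlib

/-!
# Jacobson's formula `(D + u) ^ p 1 = D ^ (p - 1) u + u ^ p`, logarithmic derivatives, and the Cartier operator

For MP_a90b0f_nt (helper54).  Lean: helper45.
-/

set_option autoImplicit false

open Finset

namespace Pool.Agent.D0H54.GC

section Jacobson

variable {F : Type*} [Field F] (D : Derivation ℤ F F) (u : F)

/-- the coefficients of `c ^ j` in `(D + c u) ^ m 1` -/
def aa : ℕ → ℕ → F
  | 0, 0 => 1
  | 0, _ + 1 => 0
  | m + 1, 0 => D (aa m 0)
  | m + 1, j + 1 => D (aa m (j + 1)) + u * aa m j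

theorem key (m j : ℕ) : ((j + 1 : ℕ) : F) * aa D u m (j + 1) =
    ∑ i ∈ range m, (m.choose (i + 1) : F) * (aa D u (m - 1 - i) j * (D^[i]) u) := by
  induction m generalizing j with
  | zero => simp [aa]
  | succ m ih =>
    -- the common form
    have hD : ∀ k, D (∑ i ∈ range m, (m.choose (i + 1) : F) * (aa D u (m - 1 - i) k * (D^[i]) u)) =
        ∑ i ∈ range m, (m.choose (i + 1) : F) * (D (aa D u (m - 1 - i) k) * (D^[i]) u +
          aa D u (m - 1 - i) k * (D^[i + 1]) u) := by
      intro k
      rw [map_sum]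
      refine sum_congr rfl fun i _ => ?_
      rw [Derivation.leibniz, Derivation.map_natCast, smul_zero, add_zero, smul_eq_mul,
        Derivation.leibniz, smul_eq_mul, smul_eq_mul, Function.iterate_succ_apply']
      ring
    have hcommon : ((j + 1 : ℕ) : F) * aa D u (m + 1) (j + 1) =
        (∑ i ∈ range m, (m.choose (i + 1) : F) * (aa D u (m - i) j * (D^[i]) u +
          aa D u (m - 1 - i) j * (D^[i + 1]) u)) + u * aa D u m j := by
      have e1 : ((j + 1 : ℕ) : F) * D (aa D u m (j + 1)) =
          ∑ i ∈ range m, (m.choose (i + 1) : F) * (D (aa D u (m - 1 - i) j) * (D^[i]) u +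
            aa D u (m - 1 - i) j * (D^[i + 1]) u) := by
        rw [← hD, ← ih j, Derivation.leibniz, Derivation.map_natCast, smul_zero, add_zero,
          smul_eq_mul]
      rcases j with _ | j
      · rw [show aa D u (m + 1) (0 + 1) = D (aa D u m (0 + 1)) + u * aa D u m 0 from rfl, mul_add, e1]
        congr 1
        · refine sum_congr rfl fun i hi => ?_
          rw [mem_range] at hi
          rw [show m - i = (m - 1 - i) + 1 by omega]
          rfl
        · simp
      · rw [show aa D u (m + 1) (j + 1 + 1) = D (aa D u m (j + 1 + 1)) + u * aa D u m (j + 1) from rfl,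
          mul_add, e1]
        have e2 : ((j + 1 + 1 : ℕ) : F) * (u * aa D u m (j + 1)) =
            (∑ i ∈ range m, (m.choose (i + 1) : F) * (u * aa D u (m - 1 - i) j * (D^[i]) u)) +
            u * aa D u m (j + 1) := by
          have e3 := ih j
          have e4 : ((j + 1 + 1 : ℕ) : F) * (u * aa D u m (j + 1)) =
            u * (((j + 1 : ℕ) : F) * aa D u m (j + 1)) + u * aa D u m (j + 1) := by
            push_cast; ring
          rw [e4, e3, mul_sum]
          congr 1
          refine sum_congr rfl fun i _ => ?_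
          ring
        rw [e2, ← add_assoc, ← sum_add_distrib]
        congr 1
        refine sum_congr rfl fun i hi => ?_
        rw [mem_range] at hi
        rw [show m - i = (m - 1 - i) + 1 by omega]
        rw [show aa D u (m - 1 - i + 1) (j + 1) = D (aa D u (m - 1 - i) (j + 1)) +
          u * aa D u (m - 1 - i) j from rfl]
        ring
    rw [hcommon]
    have e5 : ∑ i ∈ range (m + 1), ((m + 1).choose (i + 1) : F) *
        (aa D u (m + 1 - 1 - i) j * (D^[i]) u) =
        (∑ i ∈ range (m + 1), (m.choose i : F) * (aa D u (m - i) j * (D^[i]) u)) +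
        ∑ i ∈ range (m + 1), (m.choose (i + 1) : F) * (aa D u (m - i) j * (D^[i]) u) := by
      rw [← sum_add_distrib]
      refine sum_congr rfl fun i _ => ?_
      rw [Nat.choose_succ_succ, Nat.cast_add, Nat.add_sub_cancel]
      ring
    rw [e5, sum_range_succ', sum_range_succ (fun i => (m.choose (i + 1) : F) * _)]
    simp only [Nat.choose_succ_self, Nat.cast_zero, zero_mul, add_zero, Nat.choose_zero_right,
      Nat.cast_one, one_mul, Nat.sub_zero, Function.iterate_zero, id_eq]
    have e6 : ∑ i ∈ range m, (m.choose (i + 1) : F) * (aa D u (m - (i + 1)) j * (D^[i + 1]) u) =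
        ∑ i ∈ range m, (m.choose (i + 1) : F) * (aa D u (m - 1 - i) j * (D^[i + 1]) u) :=
      sum_congr rfl fun i _ => by rw [show m - (i + 1) = m - 1 - i by omega]
    rw [e6]
    simp only [mul_add, sum_add_distrib]
    ring

theorem aa_zero (m : ℕ) : aa D u m 0 = (D^[m]) 1 := by
  induction m with
  | zero => rfl
  | succ m ih => rw [show aa D u (m + 1) 0 = D (aa D u m 0) from rfl, ih,
      Function.iterate_succ_apply']

theorem aa_gt (m j : ℕ) (h : m < j) : aa D u m j = 0 := by
  induction m generalizing j with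
  | zero =>
    rcases j with _ | j
    · omega
    · rfl
  | succ m ih =>
    rcases j with _ | j
    · omega
    · rw [show aa D u (m + 1) (j + 1) = D (aa D u m (j + 1)) + u * aa D u m j from rfl,
        ih (j + 1) (by omega), ih j (by omega)]
      simp

theorem aa_diag (m : ℕ) : aa D u m m = u ^ m := by
  induction m with
  | zero => simp [aa]
  | succ m ih =>
    rw [show aa D u (m + 1) (m + 1) = D (aa D u m (m + 1)) + u * aa D u m m from rfl,
      ih, aa_gt D u m (m + 1) (by omega), map_zero, zero_add, pow_succ']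

/-- `(D + u) ^ m 1` -/
def ww : ℕ → F
  | 0 => 1
  | m + 1 => D (ww m) + u * ww m

theorem ww_eq (m : ℕ) : ww D u m = ∑ j ∈ range (m + 1), aa D u m j := by
  induction m with
  | zero => simp [ww, aa]
  | succ m ih =>
    rw [show ww D u (m + 1) = D (ww D u m) + u * ww D u m from rfl, ih, map_sum, mul_sum]
    rw [sum_range_succ' (fun j => aa D u (m + 1) j)]
    rw [show aa D u (m + 1) 0 = D (aa D u m 0) from rfl]
    have e1 : ∑ j ∈ range (m + 1), aa D u (m + 1) (j + 1) =
        ∑ j ∈ range (m + 1), (D (aa D u m (j + 1)) + u * aa D u m j) := rfl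
    rw [e1, sum_add_distrib]
    have e2 : ∑ j ∈ range (m + 1), D (aa D u m (j + 1)) + D (aa D u m 0) =
        ∑ j ∈ range (m + 1), D (aa D u m j) := by
      rw [← sum_range_succ' (fun j => D (aa D u m j)), sum_range_succ,
        aa_gt D u m (m + 1) (by omega), map_zero, add_zero]
    rw [← e2]
    ring

/-- Jacobson's formula, applied to `1` -/
theorem jacobson (p : ℕ) [Fact p.Prime] [CharP F p] :
    ww D u p = (D^[p - 1]) u + u ^ p := by
  have hp : p.Prime := Fact.out
  have hp2 := hp.two_le
  have h1 : ∀ j, ((j + 1 : ℕ) : F) * aa D u p (j + 1) =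
      if j = 0 then (D^[p - 1]) u else 0 := by
    intro j
    rw [key]
    obtain ⟨q, rfl⟩ : ∃ q, p = q + 1 := ⟨p - 1, by omega⟩
    rw [sum_range_succ]
    have e1 : ∑ i ∈ range q, ((q + 1).choose (i + 1) : F) *
        (aa D u (q + 1 - 1 - i) j * (D^[i]) u) = 0 := by
      refine sum_eq_zero fun i hi => ?_
      rw [mem_range] at hi
      have : (q + 1) ∣ (q + 1).choose (i + 1) :=
        hp.dvd_choose_self (by omega) (by omega)
      rw [(CharP.cast_eq_zero_iff F (q + 1) _).2 this, zero_mul]
    rw [e1, zero_add, Nat.choose_self, Nat.cast_one, one_mul]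
    rw [show q + 1 - 1 - q = 0 by omega, Nat.add_sub_cancel]
    rcases j with _ | j
    · simp [aa]
    · simp [aa]
  have hj : ∀ j, 2 ≤ j → j < p → aa D u p j = 0 := by
    intro j hj1 hj2
    obtain ⟨i, rfl⟩ : ∃ i, j = i + 1 := ⟨j - 1, by omega⟩
    have h2 := h1 i
    rw [if_neg (by omega)] at h2
    rcases mul_eq_zero.1 h2 with h3 | h3
    · rw [CharP.cast_eq_zero_iff F p] at h3
      exact absurd (Nat.le_of_dvd (by omega) h3) (by omega)
    · exact h3
  have h0 : aa D u p 0 = 0 := by
    rw [aa_zero]
    obtain ⟨q, rfl⟩ : ∃ q, p = q + 1 := ⟨p - 1, by omega⟩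
    rw [Function.iterate_succ_apply, Derivation.map_one_eq_zero]
    exact iterate_map_zero D q
  have h2 : aa D u p 1 = (D^[p - 1]) u := by
    have := h1 0
    simpa using this
  rw [ww_eq, sum_range_succ, aa_diag]
  congr 1
  have e : range p = insert 0 (insert 1 (Ico 2 p)) := by
    ext j
    simp only [mem_range, mem_insert, mem_Ico]
    omega
  rw [e, sum_insert (by simp), sum_insert (by simp), h0, h2,
    sum_eq_zero (s := Ico 2 p) (fun j hj' => by
      rw [mem_Ico] at hj'
      exact hj j hj'.1 hj'.2)]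
  simp

end Jacobson

/-- If `D ^ p = 0` and `D ^ (p - 1) h + h ^ p = 0` then `h` is a logarithmic derivative. -/
theorem exists_log_derivative {F : Type*} [Field F] (p : ℕ) [Fact p.Prime] [CharP F p]
    (D : Derivation ℤ F F) (hDp : ∀ x, (D^[p]) x = 0) (h : F) (hh : (D^[p - 1]) h + h ^ p = 0) :
    ∃ g : F, g ≠ 0 ∧ D g = h * g := by
  have hp : p.Prime := Fact.out
  have h1 : ww D (-h) p = 0 := by
    rw [jacobson]
    have e1 : (D^[p - 1]) (-h) = -((D^[p - 1]) h) := iterate_map_neg D (p - 1) h
    have e2 : (-h) ^ p = -(h ^ p) := by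
      rcases hp.eq_two_or_odd' with h2 | h2
      · subst h2
        have : (2 : F) = 0 := CharTwo.two_eq_zero
        have e : (-h) ^ 2 - -(h ^ 2) = 2 * h ^ 2 := by ring
        rw [this, zero_mul] at e
        exact sub_eq_zero.1 e
      · exact h2.neg_pow h
    rw [e1, e2, ← neg_add, hh, neg_zero]
  -- the last nonzero `ww`
  classical
  have hex : ∃ m, ww D (-h) m = 0 := ⟨p, h1⟩
  set m := Nat.find hex with hm
  have hm0 : ww D (-h) m = 0 := Nat.find_spec hex
  have hm1 : m ≠ 0 := by
    intro h0
    rw [h0] at hm0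
    exact one_ne_zero hm0
  obtain ⟨i, hi⟩ : ∃ i, m = i + 1 := ⟨m - 1, by omega⟩
  refine ⟨ww D (-h) i, ?_, ?_⟩
  · exact Nat.find_min hex (by omega)
  · rw [hi] at hm0
    have : D (ww D (-h) i) + (-h) * ww D (-h) i = 0 := hm0
    linear_combination this

/-! ### The Cartier operator -/

theorem D_pow_p {F : Type*} [Field F] (p : ℕ) [CharP F p] (D : Derivation ℤ F F) (y : F) :
    D (y ^ p) = 0 := by
  rw [Derivation.leibniz_pow]
  simp

theorem iter_mul_pow_p {F : Type*} [Field F] (p : ℕ) [CharP F p] (D : Derivation ℤ F F)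
    (x y : F) (k : ℕ) : (D^[k]) (x * y ^ p) = (D^[k]) x * y ^ p := by
  induction k with
  | zero => rfl
  | succ k ih =>
    rw [Function.iterate_succ_apply', ih, Derivation.leibniz, D_pow_p, smul_zero, zero_add,
      smul_eq_mul, Function.iterate_succ_apply', mul_comm]

theorem iter_T_pow {F : Type*} [Field F] (D : Derivation ℤ F F) {T : F} (hT : D T = 1)
    (i k : ℕ) : (D^[k]) (T ^ i) = (i.descFactorial k : F) * T ^ (i - k) := by
  induction k with
  | zero => simp
  | succ k ih =>
    rw [Function.iterate_succ_apply', ih, Derivation.leibniz, Derivation.map_natCast, smul_zero,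
      add_zero, Derivation.leibniz_pow, hT, Nat.descFactorial_succ]
    simp only [smul_eq_mul, nsmul_eq_mul, mul_one, Nat.cast_mul]
    rw [show i - (k + 1) = i - k - 1 by omega]
    ring

/-- Cartier: `D ^ (p - 1) (∑ T ^ i y_i ^ p) = - y_(p-1) ^ p` if `D T = 1` -/
theorem cartier {F : Type*} [Field F] (p : ℕ) [Fact p.Prime] [CharP F p]
    (D : Derivation ℤ F F) {T : F} (hT : D T = 1) (y : ℕ → F) :
    (D^[p - 1]) (∑ i ∈ range p, T ^ i * y i ^ p) = - (y (p - 1)) ^ p := by
  have hp : p.Prime := Fact.out
  have hp1 := hp.one_lt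
  have e0 : (D^[p - 1]) (∑ i ∈ range p, T ^ i * y i ^ p) =
      ∑ i ∈ range p, (D^[p - 1]) (T ^ i * y i ^ p) := by
    have : ∀ k (s : Finset ℕ) (f : ℕ → F), (D^[k]) (∑ i ∈ s, f i) = ∑ i ∈ s, (D^[k]) (f i) := by
      intro k
      induction k with
      | zero => intro s f; rfl
      | succ k ih =>
        intro s f
        rw [Function.iterate_succ_apply, map_sum, ih]
        rfl
    exact this _ _ _
  rw [e0]
  rw [sum_eq_single (p - 1)]
  · rw [iter_mul_pow_p, iter_T_pow D hT, Nat.descFactorial_self, Nat.sub_self, pow_zero, mul_one]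
    have hw : (((p - 1).factorial : ℕ) : F) = -1 := by
      have h1 : ((((p - 1).factorial : ℕ) : ZMod p)) = -1 := ZMod.wilsons_lemma p
      have h2 := congrArg (ZMod.castHom (dvd_refl p) F) h1
      rw [map_natCast, map_neg, map_one] at h2
      exact h2
    rw [hw]
    ring
  · intro i hi hne
    rw [mem_range] at hi
    rw [iter_mul_pow_p, iter_T_pow D hT, Nat.descFactorial_eq_zero_iff_lt.2 (by omega)]
    simp
  · intro h
    exact absurd (mem_range.2 (by omega)) h

/-- the decomposition `F = ⊕ T ^ i F ^ p` -/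
theorem exists_decomp {F : Type*} [Field F] (p : ℕ) [Fact p.Prime] [CharP F p]
    (hfin : Module.finrank (frobenius F p).fieldRange F = p)
    (D : Derivation ℤ F F) {T : F} (hT : D T = 1) (x : F) :
    ∃ y : ℕ → F, x = ∑ i ∈ range p, T ^ i * y i ^ p := by
  have hp : p.Prime := Fact.out
  set K := (frobenius F p).fieldRange with hK
  have hfd : FiniteDimensional K F := Module.finite_of_finrank_pos (by rw [hfin]; exact hp.pos)
  have hTK : T ∉ K := by
    rintro ⟨z, hz⟩
    have h1 : D (z ^ p) = 0 := D_pow_p p D z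
    rw [frobenius_def] at hz
    rw [hz, hT] at h1
    exact one_ne_zero h1
  have hint : IsIntegral K T := IsIntegral.of_finite K T
  have hdeg : (minpoly K T).natDegree ∣ p := by
    rw [← IntermediateField.adjoin.finrank hint, ← hfin]
    exact ⟨Module.finrank (IntermediateField.adjoin K {T}) F,
      (Module.finrank_mul_finrank K (IntermediateField.adjoin K {T}) F).symm⟩
  have hdeg1 : (minpoly K T).natDegree ≠ 1 := by
    intro h1
    rw [minpoly.natDegree_eq_one_iff] at h1
    obtain ⟨z, hz⟩ := h1
    exact hTK (by rw [← hz]; exact z.2)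
  have hdegp : (minpoly K T).natDegree = p := by
    rcases (Nat.dvd_prime hp).1 hdeg with h | h
    · exact absurd h hdeg1
    · exact h
  have htop : IntermediateField.adjoin K {T} = ⊤ := by
    rw [Field.primitive_element_iff_minpoly_natDegree_eq, hdegp, hfin]
  have hx : x ∈ IntermediateField.adjoin K {T} := by rw [htop]; exact IntermediateField.mem_top
  rw [← IntermediateField.mem_toSubalgebra,
    IntermediateField.adjoin_simple_toSubalgebra_of_isAlgebraic hint.isAlgebraic,
    Algebra.adjoin_singleton_eq_range_aeval] at hx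
  obtain ⟨f, hf⟩ := hx
  have hf' : Polynomial.aeval T (f %ₘ minpoly K T) = x := by
    rw [minpoly.aeval_modByMonic_minpoly]
    exact hf
  have hdf : (f %ₘ minpoly K T).natDegree < p := by
    rw [← hdegp]
    exact Polynomial.natDegree_modByMonic_lt _ (minpoly.monic hint)
      (fun h => by
        have := minpoly.natDegree_pos hint
        rw [h, Polynomial.natDegree_one] at this
        exact lt_irrefl _ this)
  rw [Polynomial.aeval_eq_sum_range' hdf] at hf'
  have hc : ∀ i, ∃ z : F, z ^ p = ((f %ₘ minpoly K T).coeff i : F) := by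
    intro i
    obtain ⟨z, hz⟩ := ((f %ₘ minpoly K T).coeff i).2
    exact ⟨z, hz⟩
  choose y hy using hc
  refine ⟨y, ?_⟩
  rw [← hf']
  refine sum_congr rfl fun i _ => ?_
  rw [hy, Subfield.smul_def, smul_eq_mul, mul_comm]

end Pool.Agent.D0H54.GC
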