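import Mathlib

/-!
# Piece U1 of the Gekeler project (written by helper10): the unit bound over the Witt vectors
-/

set_option autoImplicit false
set_option linter.unusedSectionVars false

open scoped TensorProduct

namespace Pool.Agent.D0H54.UB

section W

variable {p : ℕ} [Fact p.Prime] {kap : Type*} [Field kap] [CharP kap p]

theorem witt_charZero : CharZero (WittVector p kap) := by
  obtain ⟨q, hq⟩ := CharP.exists (WittVector p kap)
  rcases CharP.char_is_prime_or_zero (WittVector p kap) q with h | h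
  · exfalso
    have h1 : ((q : ℕ) : WittVector p kap) = 0 := CharP.cast_eq_zero _ q
    have h2 := congrArg (WittVector.constantCoeff : WittVector p kap →+* kap) h1
    rw [map_natCast, map_zero] at h2
    have h3 : p ∣ q := (CharP.cast_eq_zero_iff kap p q).1 h2
    have h4 : p = q := (Nat.prime_dvd_prime_iff_eq (Fact.out : p.Prime) h).1 h3
    subst h4
    exact WittVector.p_nonzero p kap h1
  · subst h
    exact CharP.charP_to_charZero _

theorem witt_flat : Module.Flat ℤ (WittVector p kap) := by
  have := witt_charZero (p := p) (kap := kap)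
  infer_instance

/-- the integers prime to `p` are units -/
theorem witt_unit {m : ℕ} (hm : ¬ p ∣ m) : IsUnit ((m : ℕ) : WittVector p kap) := by
  apply WittVector.isUnit_of_coeff_zero_ne_zero
  have h2 : ((m : ℕ) : WittVector p kap).coeff 0 = (m : kap) := by
    have := map_natCast (WittVector.constantCoeff : WittVector p kap →+* kap) m
    exact this
  rw [h2]
  intro h
  exact hm ((CharP.cast_eq_zero_iff kap p m).1 h)

/-- the Teichmüller lifts of the units -/
noncomputable def T : kapˣ →* (WittVector p kap)ˣ := Units.map (WittVector.teichmuller p)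

theorem T_coe (a : kapˣ) : ((T a : (WittVector p kap)ˣ) : WittVector p kap) =
    WittVector.teichmuller p (a : kap) := rfl

theorem cc_T (a : kapˣ) : (WittVector.constantCoeff : WittVector p kap →+* kap)
    ((T a : (WittVector p kap)ˣ) : WittVector p kap) = a := by
  rw [T_coe]
  exact WittVector.teichmuller_coeff_zero p (a : kap)

end W

section main

variable {p : ℕ} [Fact p.Prime] {kap : Type*} [Field kap] [CharP kap p]
variable {U : Type*} [AddCommGroup U]

/-- the extension of scalars of an additive map to the Witt vectors -/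
noncomputable def ext {U' : Type*} [AddCommGroup U'] (f : U →ₗ[ℤ] U') :
    WittVector p kap ⊗[ℤ] U →ₗ[WittVector p kap] WittVector p kap ⊗[ℤ] U' :=
  f.baseChange (WittVector p kap)

theorem ext_tmul {U' : Type*} [AddCommGroup U'] (f : U →ₗ[ℤ] U') (x : WittVector p kap) (u : U) :
    ext (p := p) (kap := kap) f (x ⊗ₜ u) = x ⊗ₜ f u := LinearMap.baseChange_tmul _ _ _

/-- the reduction modulo `p` -/
noncomputable def red : WittVector p kap ⊗[ℤ] U →+ kap ⊗[ℤ] U :=
  (TensorProduct.map ((WittVector.constantCoeff : WittVector p kap →+* kap).toAddMonoidHom.toIntLinearMap)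
    (LinearMap.id : U →ₗ[ℤ] U)).toAddMonoidHom

theorem red_tmul (x : WittVector p kap) (u : U) :
    red (p := p) (kap := kap) (x ⊗ₜ u) =
      (WittVector.constantCoeff : WittVector p kap →+* kap) x ⊗ₜ[ℤ] u := rfl

theorem red_smul (c : WittVector p kap) (x : WittVector p kap ⊗[ℤ] U) :
    red (c • x) = (WittVector.constantCoeff : WittVector p kap →+* kap) c • red x := by
  induction x using TensorProduct.induction_on with
  | zero => rw [smul_zero, map_zero, smul_zero]
  | tmul y u =>
    rw [TensorProduct.smul_tmul', red_tmul, red_tmul, TensorProduct.smul_tmul', smul_eq_mul,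
      map_mul, smul_eq_mul]
  | add a b ha hb => rw [smul_add, map_add, ha, hb, map_add, smul_add]

/-- the same for `kap` -/
noncomputable def extk (f : U →ₗ[ℤ] U) : kap ⊗[ℤ] U →ₗ[kap] kap ⊗[ℤ] U :=
  f.baseChange kap

theorem extk_tmul (f : U →ₗ[ℤ] U) (x : kap) (u : U) :
    extk (kap := kap) f (x ⊗ₜ u) = x ⊗ₜ f u := LinearMap.baseChange_tmul _ _ _

theorem red_ext (f : U →ₗ[ℤ] U) (x : WittVector p kap ⊗[ℤ] U) :
    red (ext f x) = extk f (red x) := by
  induction x using TensorProduct.induction_on with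
  | zero => rw [map_zero, map_zero, map_zero]
  | tmul y u => rw [ext_tmul, red_tmul, red_tmul, extk_tmul]
  | add a b ha hb => rw [map_add, map_add, ha, hb, map_add, map_add]

theorem ext_comp (f g : U →ₗ[ℤ] U) (x : WittVector p kap ⊗[ℤ] U) :
    ext f (ext g x) = ext (f ∘ₗ g) x := by
  induction x using TensorProduct.induction_on with
  | zero => rw [map_zero, map_zero, map_zero]
  | tmul y u => rw [ext_tmul, ext_tmul, ext_tmul]; rfl
  | add a b ha hb => rw [map_add, map_add, ha, hb, map_add]

/-- the valuation -/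
noncomputable def V (v : U →+ ℤ) : WittVector p kap ⊗[ℤ] U →ₗ[WittVector p kap] WittVector p kap :=
  (TensorProduct.AlgebraTensorModule.rid ℤ (WittVector p kap) (WittVector p kap)).toLinearMap ∘ₗ
    ext v.toIntLinearMap

theorem V_tmul (v : U →+ ℤ) (x : WittVector p kap) (u : U) : V v (x ⊗ₜ u) = v u • x := by
  unfold V
  rw [LinearMap.comp_apply, ext_tmul]
  exact TensorProduct.AlgebraTensorModule.rid_tmul ℤ (v u) x

/-- the kernel of all the valuations is trivial -/
theorem ker_zero [Finite kapˣ] (s : kapˣ → U →+ U) (v : U →+ ℤ)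
    (hv : ∀ u, (∀ a, v (s a u) = 0) → ∃ m : ℕ, ¬ p ∣ m ∧ m • u = 0)
    (x : WittVector p kap ⊗[ℤ] U)
    (hx : ∀ a : kapˣ, V v (ext (s a).toIntLinearMap x) = 0) : x = 0 := by
  classical
  have := Fintype.ofFinite kapˣ
  have hflat := witt_flat (p := p) (kap := kap)
  let φ : U →ₗ[ℤ] (kapˣ → ℤ) :=
    { toFun := fun u a => v (s a u)
      map_add' := fun u u' => by
        funext a
        simp
      map_smul' := fun n u => by
        funext a
        simp }
  have h1 : ext (p := p) (kap := kap) φ x = 0 := by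
    have key : ∀ y : WittVector p kap ⊗[ℤ] U, ∀ a : kapˣ,
        TensorProduct.piScalarRight ℤ (WittVector p kap) (WittVector p kap) kapˣ (ext φ y) a =
          V v (ext (s a).toIntLinearMap y) := by
      intro y a
      induction y using TensorProduct.induction_on with
      | zero => simp
      | tmul z u =>
        rw [ext_tmul, ext_tmul, V_tmul, TensorProduct.piScalarRight_apply,
          TensorProduct.piScalarRightHom_tmul]
        rfl
      | add b c hb hc =>
        rw [map_add, map_add, map_add, map_add, Pi.add_apply, hb, hc]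
    apply (TensorProduct.piScalarRight ℤ (WittVector p kap) (WittVector p kap) kapˣ).injective
    rw [map_zero]
    funext a
    rw [key, hx]
    rfl
  have h2 : Function.Exact ((LinearMap.ker φ).subtype.lTensor (WittVector p kap))
      (φ.lTensor (WittVector p kap)) :=
    Module.Flat.lTensor_exact (WittVector p kap) (LinearMap.exact_subtype_ker_map φ)
  obtain ⟨y, hy⟩ := (h2 x).1 h1
  rw [← hy]
  have h3 : ∀ y : WittVector p kap ⊗[ℤ] (LinearMap.ker φ), y = 0 := by
    intro y
    induction y using TensorProduct.induction_on with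
    | zero => rfl
    | tmul z u =>
      obtain ⟨m, hm, hmu⟩ := hv u.1 (fun a => congrFun u.2 a)
      obtain ⟨c, hc⟩ := (witt_unit (p := p) (kap := kap) hm).exists_left_inv
      have h4 : z = (m : ℤ) • (c * z) := by
        rw [zsmul_eq_mul, Int.cast_natCast, ← mul_assoc, mul_comm (m : WittVector p kap) c, hc,
          one_mul]
      have h5 : (m : ℤ) • u = 0 := by
        apply Subtype.ext
        show ((m : ℤ) • (u : U)) = 0
        rw [natCast_zsmul]
        exact hmu
      rw [h4, TensorProduct.smul_tmul, h5, TensorProduct.tmul_zero]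
    | add b c hb hc => rw [hb, hc, add_zero]
  rw [h3 y, map_zero]

/-- **U1** -/
theorem unit_bound [Fintype kap] [Fintype kapˣ] (s : kapˣ → U →+ U)
    (hs : ∀ a b u, s (a * b) u = s a (s b u)) (v : U →+ ℤ)
    (hv : ∀ u, (∀ a, v (s a u) = 0) → ∃ m : ℕ, ¬ p ∣ m ∧ m • u = 0) (l : ℕ) :
    ∃ m0 : kap ⊗[ℤ] U, ∀ e : kapˣ → U,
      (∀ a c, ∃ u : U, s a (e c) = e (a ^ l * c) + p • u) →
      ∃ c0 : kap, (∑ c : kapˣ, ((c : kap)⁻¹) ⊗ₜ[ℤ] e c) = c0 • m0 := by
  classical
  have hperf : PerfectRing kap p := inferInstance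
  have hflat := witt_flat (p := p) (kap := kap)
  let S : kapˣ → U →ₗ[ℤ] U := fun a => (s a).toIntLinearMap
  have hS : ∀ a u, S a u = s a u := fun a u => rfl
  let M : Submodule (WittVector p kap) (WittVector p kap ⊗[ℤ] U) :=
    ⨅ a : kapˣ, LinearMap.ker (ext (p := p) (kap := kap) (S a) -
      (((T a : (WittVector p kap)ˣ) : WittVector p kap) ^ l) • LinearMap.id)
  have hM : ∀ x, x ∈ M ↔ ∀ a : kapˣ, ext (S a) x =
      ((T a : (WittVector p kap)ˣ) : WittVector p kap) ^ l • x := by
    intro x
    rw [Submodule.mem_iInf]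
    refine forall_congr' fun a => ?_
    rw [LinearMap.mem_ker, LinearMap.sub_apply, sub_eq_zero]
    rfl
  have hinj : ∀ x ∈ M, V v x = 0 → x = 0 := by
    intro x hx hVx
    refine ker_zero s v hv x fun a => ?_
    have h1 := (hM x).1 hx a
    show V v (ext (S a) x) = 0
    rw [h1, map_smul, hVx, smul_zero]
  obtain ⟨g, hg⟩ := IsPrincipalIdealRing.principal (R := WittVector p kap)
    (M.map (V v) : Ideal (WittVector p kap))
  have hgm : g ∈ M.map (V v) := by
    have : g ∈ Ideal.span {g} := Ideal.mem_span_singleton_self g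
    rw [hg]
    exact this
  obtain ⟨m1, hm1, hm1g⟩ := hgm
  refine ⟨red m1, fun e he => ?_⟩
  let X : WittVector p kap ⊗[ℤ] U :=
    ∑ c : kapˣ, ((T c⁻¹ : (WittVector p kap)ˣ) : WittVector p kap) ⊗ₜ[ℤ] e c
  let X' : WittVector p kap ⊗[ℤ] U :=
    ∑ a : kapˣ, ((T (a⁻¹ ^ l) : (WittVector p kap)ˣ) : WittVector p kap) • ext (S a) X
  have hX' : X' ∈ M := by
    rw [hM]
    intro b
    show ext (S b) (∑ a : kapˣ, ((T (a⁻¹ ^ l) : (WittVector p kap)ˣ) : WittVector p kap) •
      ext (S a) X) = _
    rw [map_sum, Finset.smul_sum]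
    refine Fintype.sum_equiv (Equiv.mulLeft b) _ _ fun a => ?_
    rw [map_smul, ext_comp, smul_smul]
    have e1 : S b ∘ₗ S a = S (b * a) := by
      ext u
      exact (hs b a u).symm
    rw [e1]
    congr 1
    rw [← Units.val_pow_eq_pow_val, ← Units.val_mul, ← map_pow, ← map_mul]
    congr 2
    show a⁻¹ ^ l = b ^ l * (b * a)⁻¹ ^ l
    rw [mul_inv, mul_pow, ← mul_assoc, ← mul_pow, mul_inv_cancel, one_pow, one_mul]
  obtain ⟨c1, hc1⟩ : ∃ c1 : WittVector p kap, X' = c1 • m1 := by
    have h1 : V v X' ∈ M.map (V v) := ⟨X', hX', rfl⟩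
    rw [hg] at h1
    obtain ⟨c, hc⟩ := Ideal.mem_span_singleton'.1 h1
    refine ⟨c, ?_⟩
    have h2 : X' - c • m1 = 0 := by
      refine hinj _ (M.sub_mem hX' (M.smul_mem c hm1)) ?_
      rw [map_sub, map_smul, hm1g, smul_eq_mul, hc, sub_self]
    exact sub_eq_zero.1 h2
  -- reduction
  have hrX : red X = ∑ c : kapˣ, ((c : kap)⁻¹) ⊗ₜ[ℤ] e c := by
    show red (∑ c : kapˣ, ((T c⁻¹ : (WittVector p kap)ˣ) : WittVector p kap) ⊗ₜ[ℤ] e c) = _
    rw [map_sum]
    refine Finset.sum_congr rfl fun c _ => ?_
    rw [red_tmul, cc_T, Units.val_inv_eq_inv_val]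
  have hact : ∀ a : kapˣ, extk (S a) (red X) = ((a : kap) ^ l) • red X := by
    intro a
    rw [hrX, map_sum, Finset.smul_sum]
    refine Fintype.sum_equiv (Equiv.mulLeft (a ^ l)) _ _ fun c => ?_
    obtain ⟨u, hu⟩ := he a c
    have h0 : ((c : kap)⁻¹) ⊗ₜ[ℤ] (p • u) = 0 := by
      rw [← natCast_zsmul, ← TensorProduct.smul_tmul, natCast_zsmul, nsmul_eq_mul,
        CharP.cast_eq_zero, zero_mul, TensorProduct.zero_tmul]
    rw [extk_tmul, hS, hu, TensorProduct.tmul_add, h0, add_zero, TensorProduct.smul_tmul',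
      smul_eq_mul]
    congr 1
    show ((c : kap)⁻¹) = (a : kap) ^ l * (((a ^ l * c : kapˣ) : kap))⁻¹
    have ha : ((a : kap)) ^ l ≠ 0 := pow_ne_zero _ a.ne_zero
    have hc : (c : kap) ≠ 0 := c.ne_zero
    push_cast
    field_simp
  have hrX' : red X' = -red X := by
    show red (∑ a : kapˣ, ((T (a⁻¹ ^ l) : (WittVector p kap)ˣ) : WittVector p kap) •
      ext (S a) X) = _
    rw [map_sum]
    have h1 : ∀ a : kapˣ, red (((T (a⁻¹ ^ l) : (WittVector p kap)ˣ) : WittVector p kap) •
        ext (S a) X) = red X := by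
      intro a
      rw [red_smul, cc_T, red_ext, hact, smul_smul]
      have : (((a⁻¹ ^ l : kapˣ) : kap)) * (a : kap) ^ l = 1 := by
        rw [← Units.val_pow_eq_pow_val, ← Units.val_mul, ← mul_pow, inv_mul_cancel, one_pow,
          Units.val_one]
      rw [this, one_smul]
    rw [Finset.sum_congr rfl fun a _ => h1 a, Finset.sum_const, Finset.card_univ]
    have h2 : ((Fintype.card kapˣ : ℕ) : kap) = -1 := by
      have h3 : Fintype.card kapˣ = Fintype.card kap - 1 := by
        rw [← Nat.card_eq_fintype_card, Nat.card_units, Nat.card_eq_fintype_card]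
      have h4 : 1 ≤ Fintype.card kap := Fintype.card_pos
      rw [h3, Nat.cast_sub h4]
      have h5 : ((Fintype.card kap : ℕ) : kap) = 0 := Nat.cast_card_eq_zero kap
      rw [h5]
      simp
    rw [← Nat.cast_smul_eq_nsmul kap, h2, neg_smul, one_smul]
  refine ⟨-(WittVector.constantCoeff : WittVector p kap →+* kap) c1, ?_⟩
  rw [← hrX, neg_smul, ← red_smul, ← hc1, hrX', neg_neg]

end main

end Pool.Agent.D0H54.UB
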